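import Pool.Agent.U157.SLK.Types

set_option autoImplicit false
set_option linter.unusedSectionVars false

/-!
# Characters of an imaginary quadratic field: at most one exceptional real quadratic field

Let `k` be an imaginary quadratic field, `p` any prime and `ψ` a character of finite order of the
absolute Galois group of `k`, with values in `ℂ_p`. For a real quadratic field `F` let `K = F k` and let
`χ` be the restriction of `ψ` to the absolute Galois group of `K`.

**Theorem.** There is at most ONE real quadratic field `F` for which the `Σ`-Leopoldt conjecture for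
`K = F k` and `χ = ψ|K` fails for some CM type `Σ` of `K`.

The fields and the character are given inside a finite Galois extension `N/k`: `ψ` is a character of
`Gal(N/k)` and `K` is an intermediate field, quadratic over `k`, which is a CM field. For two real
quadratic fields `F₁`, `F₂` and a given character `ψ` there is an extension `N` in which everything
takes place, so the theorem is the theorem above.

Proof. The `ψ'`-part of `ℂ_p ⊗ 𝓞_N^×` has dimension at most one for each character `ψ'` of `Gal(N/k)`, as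
`k` has only one infinite place; it is spanned by a vector `w` with algebraic coordinates. Let `σ` be an
embedding of `N` in `ℂ_p` and let `σ'` be its complex conjugate for some isomorphism `ℂ_p ≅ ℂ`. By the
theorem of Brumer the number `r(ψ') = log_p (σ' w) / log_p (σ w)` is defined and different from `0`, and
if it is algebraic then it is `1` (compare the logarithms of the absolute values). If the
conjecture fails for `K` and some type, then `r(ψ η) = - r(ψ)`, where `η` is the character of `K/k`. If it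
fails for two fields, there are three different characters whose `r` are equal up to sign. The
`p`-adic hyperplane theorem (the theorem of six exponentials for linear combinations of
logarithms with algebraic coefficients) shows that this `r` is algebraic, so that `1 = -1`.
-/

namespace Pool.Agent.Results.MP_fc6b1e_nt.AtMostOneField

open NumberField Pool.Agent.W289.SL Pool.Agent.W332.SL6 Pool.Agent.U157.SLK
open Pool.Agent.W254.PA (exists_theta)

/-- Let `k ⊆ K ⊆ H ⊆ N`. The character `χ` of `Gal(H/K)` is the restriction of the character `ψ` of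
`Gal(N/k)`: if `g` in `Gal(N/K)` is equal to `h` on `H`, then `χ h = ψ g`. -/
def IsRestriction (p : ℕ) [Fact p.Prime] (k K H N : Type) [Field k] [Field K] [Field H] [Field N]
    [Algebra k K] [Algebra k N] [Algebra K H] [Algebra H N] [Algebra K N] [IsScalarTower k K N]
    (ψ : (N ≃ₐ[k] N) →* ℂ_[p]ˣ) (χ : (H ≃ₐ[K] H) →* ℂ_[p]ˣ) : Prop :=
  ∀ (g : N ≃ₐ[K] N) (h : H ≃ₐ[K] H), (∀ y, algebraMap H N (h y) = g (algebraMap H N y)) →
    χ h = ψ (g.restrictScalars k)

/-- The `Σ`-Leopoldt conjecture for `K`, all CM types `Σ` of `K` and the restriction of `ψ` to `K`, which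
is a character of `Gal(H/K)` for some Galois extension `H/K` in `N`. -/
def HoldsOver (p : ℕ) [Fact p.Prime] {k N : Type} [Field k] [NumberField k] [Field N]
    [NumberField N] [Algebra k N] (ψ : (N ≃ₐ[k] N) →* ℂ_[p]ˣ) (K : IntermediateField k N) : Prop :=
  ∀ S : Set (K →+* ℂ_[p]), IsCMType p (maximalRealSubfield K) K S →
    ∀ (H : Type) [Field H] [NumberField H] [Algebra K H] [Algebra H N] [IsScalarTower K H N]
      [IsGalois K H] (χ : (H ≃ₐ[K] H) →* ℂ_[p]ˣ), IsRestriction p k K H N ψ χ →
      SigmaLeopoldt p K H S χ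

/-- a failure gives a relation between the logarithms for two characters -/
theorem fail_step {p : ℕ} [Fact p.Prime] {k N : Type} [Field k] [NumberField k] [Field N]
    [NumberField N] [Algebra k N] [IsGalois k N] (hpl : ∀ w w' : InfinitePlace k, w = w')
    (θ : ℂ_[p] ≃+* ℂ) (ψ : (N ≃ₐ[k] N) →* ℂ_[p]ˣ) (K : IntermediateField k N) [IsCMField K]
    (h2 : Module.finrank k K = 2) (hfail : ¬ HoldsOver p ψ K) (σ : N →+* ℂ_[p]) :
    ∃ (η : (N ≃ₐ[k] N) →* ℂ_[p]ˣ) (_ : ∀ g, η g = 1 ↔ ∀ y : K, g y = y)
      (L : ℂ_[p] → ℂ_[p]) (hL : IsIwasawaLog p L) (y0 y1 : UM p N),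
      InChi ψ y0 ∧ InChi (ψ * η) y1 ∧ y0 ≠ 0 ∧ y1 ≠ 0 ∧
      logLin hL ((kap θ).comp σ) y0 * logLin hL σ y1 +
        logLin hL σ y0 * logLin hL ((kap θ).comp σ) y1 = 0 := by
  classical
  have : FiniteDimensional k N := Module.Finite.of_restrictScalars_finite ℚ k N
  have hq : Algebra.IsQuadraticExtension k K := ⟨h2⟩
  have : IsGalois k K := inferInstance
  have hcard : Nat.card (K ≃ₐ[k] K) = 2 := by rw [IsGalois.card_aut_eq_finrank, h2]
  obtain ⟨c, hc1, hcu⟩ := (Nat.card_eq_two_iff' (1 : K ≃ₐ[k] K)).1 hcard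
  have hc : ∀ a : K ≃ₐ[k] K, a = 1 ∨ a = c := by
    intro a
    by_cases h : a = 1
    · exact Or.inl h
    · exact Or.inr (hcu a h)
  have hcc : c * c = 1 := by
    have h1 : c ^ Nat.card (K ≃ₐ[k] K) = 1 := pow_card_eq_one'
    rwa [hcard, pow_two] at h1
  -- the nontrivial character of `Gal(K/k)`
  let η : (K ≃ₐ[k] K) →* ℂ_[p]ˣ :=
    { toFun := fun a => if a = 1 then 1 else -1
      map_one' := if_pos rfl
      map_mul' := fun a b => by
        rcases hc a with rfl | rfl <;> rcases hc b with rfl | rfl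
        · simp
        · rw [one_mul, if_neg hc1, if_pos rfl, one_mul]
        · rw [mul_one, if_neg hc1, if_pos rfl, mul_one]
        · rw [hcc, if_pos rfl, if_neg hc1]; simp }
  have hηc : ((η c : ℂ_[p]ˣ) : ℂ_[p]) = -1 := by
    change (((if c = 1 then 1 else -1 : ℂ_[p]ˣ)) : ℂ_[p]) = -1
    rw [if_neg hc1]
    simp
  unfold HoldsOver at hfail
  push Not at hfail
  obtain ⟨S, hS, H, iH1, iH2, iH3, iH4, iH5, iH6, χ, hχ, hSL⟩ := hfail
  unfold SigmaLeopoldt at hSL
  push Not at hSL
  obtain ⟨L, hL, x, hx, hx1, hx0⟩ := hSL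
  have hz : ∀ g : N ≃ₐ[k] N, res k K N g = 1 →
      push (g : N →+* N) (push (algebraMap H N) x) =
        ((ψ g : ℂ_[p]ˣ) : ℂ_[p]) • push (algebraMap H N) x := by
    intro g hg
    obtain ⟨g', rfl⟩ := exists_restrict hg
    exact push_chi hχ hx g'
  obtain ⟨y0, y1, h3, h4, h5, h6, h7⟩ := ratio_of_fail (K := K) hpl θ hL σ ψ η hc hηc hS
    (fun h => hx0 (push_injective (algebraMap H N) h)) hz (by
      intro s hs
      rw [logLin_push]
      apply hx1
      rw [RingHom.comp_assoc, ← IsScalarTower.algebraMap_eq]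
      exact hs)
  refine ⟨η.comp (res k K N), ?_, L, hL, y0, y1, h3, h4, h5, h6, h7⟩
  intro g
  have h8 : η.comp (res k K N) g = 1 ↔ res k K N g = 1 := by
    change (if res k K N g = 1 then 1 else -1 : ℂ_[p]ˣ) = 1 ↔ _
    constructor
    · intro h
      by_contra h9
      rw [if_neg h9] at h
      have h10 := congrArg (fun u : ℂ_[p]ˣ => (u : ℂ_[p])) h
      simp only [Units.val_neg, Units.val_one] at h10
      exact (two_ne_zero : (2 : ℂ_[p]) ≠ 0) (by linear_combination -h10)
    · intro h
      rw [if_pos h]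
  rw [h8]
  constructor
  · intro h y
    have h9 := res_commutes (K := K) g y
    rw [h] at h9
    exact h9.symm
  · intro h
    ext y
    have h9 := res_commutes (K := K) g y
    exact h9.trans (h y)

/-- **At most one exceptional field.** Let `k` be an imaginary quadratic field, `N/k` a finite Galois
extension and `ψ` a character of `Gal(N/k)` with values in `ℂ_pˣ`. Let `K₁ ≠ K₂` be CM fields between `k`
and `N` which are quadratic over `k`. Then the `Σ`-Leopoldt conjecture holds for `K₁` or for `K₂`, for all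
CM types and the restriction of `ψ`. -/
theorem result (p : ℕ) [Fact p.Prime] (k N : Type) [Field k] [NumberField k] [IsTotallyComplex k]
    (hk : Module.finrank ℚ k = 2) [Field N] [NumberField N] [Algebra k N] [IsGalois k N]
    (ψ : (N ≃ₐ[k] N) →* ℂ_[p]ˣ) (K₁ K₂ : IntermediateField k N) [IsCMField K₁] [IsCMField K₂]
    (h₁ : Module.finrank k K₁ = 2) (h₂ : Module.finrank k K₂ = 2) (hne : K₁ ≠ K₂) :
    HoldsOver p ψ K₁ ∨ HoldsOver p ψ K₂ := by
  classical
  have : FiniteDimensional k N := Module.Finite.of_restrictScalars_finite ℚ k N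
  have hpl : ∀ w w' : InfinitePlace k, w = w' := by
    have h1 := IsTotallyComplex.finrank k
    rw [hk] at h1
    have h1' := InfinitePlace.card_eq_nrRealPlaces_add_nrComplexPlaces k
    rw [IsTotallyComplex.nrRealPlaces_eq_zero k] at h1'
    have h2 : Fintype.card (InfinitePlace k) = 1 := by omega
    intro w w'
    exact (Fintype.card_le_one_iff.1 h2.le) w w'
  by_contra hcon
  rw [not_or] at hcon
  obtain ⟨θ⟩ := exists_theta p
  obtain ⟨σ⟩ : Nonempty (N →+* ℂ_[p]) := by
    obtain ⟨s⟩ : Nonempty (N →+* ℂ) := inferInstance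
    exact ⟨(θ.symm : ℂ →+* ℂ_[p]).comp s⟩
  obtain ⟨η₁, he₁, L, hL, y0, y1, hy0, hy1, hy0n, hy1n, hrel⟩ :=
    fail_step hpl θ ψ K₁ h₁ hcon.1 σ
  obtain ⟨η₂, he₂, L', hL', z0, z1, hz0, hz1, hz0n, hz1n, hrel'⟩ :=
    fail_step hpl θ ψ K₂ h₂ hcon.2 σ
  simp only [logLin_unique hL' hL] at hrel'
  -- the characters are different
  have hfix : ∀ (K : IntermediateField k N) (g : N ≃ₐ[k] N),
      (∀ y : K, g y = y) ↔ g ∈ K.fixingSubgroup := by
    intro K g
    rw [IntermediateField.mem_fixingSubgroup_iff]
    exact ⟨fun h y hy => h ⟨y, hy⟩, fun h y => h y y.2⟩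
  have hη : η₁ ≠ η₂ := by
    intro h
    apply hne
    have h3 : K₁.fixingSubgroup = K₂.fixingSubgroup := by
      ext g
      rw [← hfix, ← hfix, ← he₁, ← he₂, h]
    rw [← IsGalois.fixedField_fixingSubgroup K₁, h3, IsGalois.fixedField_fixingSubgroup K₂]
  have hη1 : ∀ (K : IntermediateField k N) (η : (N ≃ₐ[k] N) →* ℂ_[p]ˣ), Module.finrank k K = 2 →
      (∀ g, η g = 1 ↔ ∀ y : K, g y = y) → η ≠ 1 := by
    rintro K η hK h rfl
    have h3 : K.fixingSubgroup = ⊤ := by
      rw [eq_top_iff]
      intro g _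
      rw [← hfix]
      exact (h g).1 rfl
    have h4 : K = ⊥ := by
      rw [← IsGalois.fixedField_fixingSubgroup K, h3, IsGalois.fixedField_top]
    rw [h4, IntermediateField.finrank_bot] at hK
    omega
  have h11 := hη1 K₁ η₁ h₁ he₁
  have h12 := hη1 K₂ η₂ h₂ he₂
  have hcancel : ∀ η : (N ≃ₐ[k] N) →* ℂ_[p]ˣ, ψ * η = ψ → η = 1 := by
    intro η h
    ext g
    have h3 : ψ g * η g = ψ g := DFunLike.congr_fun h g
    rw [mul_eq_left.1 h3]
    rfl
  -- vectors with algebraic coordinates
  obtain ⟨w0, hw0A, hw0, hw0n⟩ := exists_alg hy0 hy0n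
  obtain ⟨w1, hw1A, hw1, hw1n⟩ := exists_alg hy1 hy1n
  obtain ⟨w2, hw2A, hw2, hw2n⟩ := exists_alg hz1 hz1n
  have hcoef : ∀ {χ : (N ≃ₐ[k] N) →* ℂ_[p]ˣ} {w y : UM p N}, InChi χ w → w ≠ 0 → InChi χ y →
      y ≠ 0 → ∃ c : ℂ_[p], c ≠ 0 ∧ y = c • w := by
    intro χ w y hw hw0 hy hy0
    obtain ⟨c, rfl⟩ := exists_smul hpl hw hw0 hy
    exact ⟨c, fun h => hy0 (by rw [h, zero_smul]), rfl⟩
  have hstep : ∀ {χ : (N ≃ₐ[k] N) →* ℂ_[p]ˣ} {w y y' : UM p N}, InChi χ w → w ≠ 0 →
      InChi ψ y → y ≠ 0 → InChi χ y' → y' ≠ 0 →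
      logLin hL ((kap θ).comp σ) y * logLin hL σ y' +
        logLin hL σ y * logLin hL ((kap θ).comp σ) y' = 0 →
      logLin hL ((kap θ).comp σ) w0 * logLin hL σ w +
        logLin hL σ w0 * logLin hL ((kap θ).comp σ) w = 0 := by
    intro χ w y y' hw hwn hy hyn hy' hyn' hr
    obtain ⟨a, ha, rfl⟩ := hcoef hw0 hw0n hy hyn
    obtain ⟨b, hb, rfl⟩ := hcoef hw hwn hy' hyn'
    simp only [map_smul, smul_eq_mul] at hr
    apply mul_left_cancel₀ (mul_ne_zero ha hb)
    linear_combination hr
  have hr1 := hstep hw1 hw1n hy0 hy0n hy1 hy1n hrel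
  have hr2 := hstep hw2 hw2n hz0 hz0n hz1 hz1n hrel'
  have ha0 : logLin hL σ w0 ≠ 0 := fun h => hw0n (eq_zero_of_log hL σ hw0A h)
  set r := logLin hL ((kap θ).comp σ) w0 / logLin hL σ w0 with hrdef
  have hcore := core hpl θ hL σ ![ψ, ψ * η₁, ψ * η₂] (by
      intro i j hij
      fin_cases i <;> fin_cases j <;> simp at hij ⊢
      · exact h11 (hcancel _ hij.symm)
      · exact h12 (hcancel _ hij.symm)
      · exact h11 (hcancel _ hij)
      · exact hη hij
      · exact h12 (hcancel _ hij)
      · exact hη hij.symm) ![w0, w1, w2] (by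
      intro j
      fin_cases j
      · exact hw0A
      · exact hw1A
      · exact hw2A) (by
      intro j
      fin_cases j
      · exact hw0
      · exact hw1
      · exact hw2) (by
      intro j
      fin_cases j
      · exact hw0n
      · exact hw1n
      · exact hw2n) r ![1, -1, -1] (by
      intro j
      fin_cases j
      · exact isAlgebraic_one
      · exact isAlgebraic_one.neg
      · exact isAlgebraic_one.neg) (by
      intro j
      fin_cases j <;> simp) (by
      intro j
      fin_cases j
      · change logLin hL ((kap θ).comp σ) w0 = 1 * r * logLin hL σ w0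
        rw [hrdef]
        field_simp
      · change logLin hL ((kap θ).comp σ) w1 = -1 * r * logLin hL σ w1
        rw [hrdef]
        field_simp
        linear_combination hr1
      · change logLin hL ((kap θ).comp σ) w2 = -1 * r * logLin hL σ w2
        rw [hrdef]
        field_simp
        linear_combination hr2)
  have h13 : 1 * r = 1 := hcore 0
  have h14 : -1 * r = 1 := hcore 1
  exact (two_ne_zero : (2 : ℂ_[p]) ≠ 0) (by linear_combination -h13 - h14)

end Pool.Agent.Results.MP_fc6b1e_nt.AtMostOneField
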