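import Pool.Agent.U157.SLK.ExchMain

set_option autoImplicit false

/-!
# Exchange of CM types: the types of smallest defect

Let `F` be ANY totally real field of degree `d`, `K` ANY totally complex quadratic extension of `F`, `p` ANY
prime, `H/K` finite Galois and `χ ≠ 1` ANY character of `Gal(H/K)` with values in `ℂ_p`. The defect of a CM
type `Σ` of `K` is the dimension of the kernel of the `p`-adic regulator map of `Σ` on the `χ`-part of
`ℂ_p ⊗ 𝓞_H^×`; it is zero if and only if the `Σ`-Leopoldt conjecture for `χ` holds. Waldschmidt's theorem shows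
that the defect of each type is at most `d / 2`.

**Exchange.** Let `n (n - 1) (s + 1 - n) < d` for all `n ≤ s` (this is `d ≥ 3` for `s = 2`, `d ≥ 7` for
`s = 3`, `d ≥ 13` for `s = 4`). Then for each CM type `Σ` and each set `T` of less than `s` embeddings there is
another CM type with the same choices on `T` whose defect is not larger. So the number of CM types
with defect at most `r` is zero or at least `2 ^ s`, for each `r`. For `r = 0`: the `Σ`-Leopoldt conjecture
for `χ` is false for all CM types `Σ` of `K` or true for at least `2 ^ s` of them. If the representation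
induced from `χ` to `Gal(ℚ)` is irreducible (Mackey's criterion), then `s (s - 1) < d` is enough.

**An unconditional case.** If `K` contains an imaginary quadratic field `k` such that `H/k` is abelian, then the
`Σ`-Leopoldt conjecture for `χ` holds for at least `2 ^ s` CM types (the two types which are
induced from `k` are the theorem of Brumer).

**Types of small defect.** If the representation induced from `χ` is irreducible, then for each type `Σ` and each
set `T` of `t` embeddings there is a CM type with the same choices on `T` whose defect is at most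
`d ^ 2 / (3 d - t)`; and for `t ≤ d` at least `2 ^ t` types have defect at most `d ^ 2 / (3 d - t)`. So
there is a type with defect at most `d / 3` (this is the known bound for the defect of Leopoldt's
conjecture for the `χ`-part of `H`), at least half of all types have defect less than `d / 2`, and `t = d` is
Waldschmidt's bound.

Proof. The `χ`-part `V` has dimension `d`, and the `2 d` embeddings of `K` give linear forms on `V` in `d` pairs.
(1) A relation between the forms at `m` different places: take the relation with the smallest number of terms, `n`.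
Its conjugates and the real logarithms at the places give, with the `p`-adic hyperplane theorem in the form of
Waldschmidt's rank bound, `d ≤ n (n - 1) (m + 1 - n)`. (2) Let `B` be a basis of the span of the forms of `Σ` which
contains `T`; a form of the complement `Σ c` which is not a combination of forms of `T` gives an edge of a directed graph
on `Σ` without `T`; a shortest cycle can be exchanged. (3) Rado's theorem on independent transversals, with
the rank bound for each set of places.
-/

namespace Pool.Agent.Results.MP_fc6b1e_nt.ExchangeOfTypes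

open NumberField Pool.Agent.W289.SL

/-- `x` lies in the `χ`-part of `ℂ_p ⊗ 𝓞_H^×` and in the kernel of the `p`-adic regulator map of the set `S` of
embeddings of `K`: `τ x = χ(τ) x` for all `τ` in `Gal(H/K)`, and `log_p (σ x) = 0` for all embeddings `σ` of `H`
in `ℂ_p` whose restriction to `K` lies in `S`. -/
def InKernel (p : ℕ) [Fact p.Prime] (K H : Type) [Field K] [Field H] [NumberField H] [Algebra K H]
    (S : Set (K →+* ℂ_[p])) (χ : (H ≃ₐ[K] H) →* ℂ_[p]ˣ) (x : UM p H) : Prop :=
  (∀ τ : H ≃ₐ[K] H, actLin p (τ : H →+* H) x = ((χ τ : ℂ_[p]ˣ) : ℂ_[p]) • x) ∧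
    ∀ (L : ℂ_[p] → ℂ_[p]) (hL : IsIwasawaLog p L) (σ : H →+* ℂ_[p]),
      σ.comp (algebraMap K H) ∈ S → logLin hL σ x = 0

section

variable {p : ℕ} [Fact p.Prime] {K H : Type} [Field K] [Field H] [NumberField H] [Algebra K H]
    {S : Set (K →+* ℂ_[p])} {χ : (H ≃ₐ[K] H) →* ℂ_[p]ˣ}

theorem InKernel.add {x y : UM p H} (hx : InKernel p K H S χ x) (hy : InKernel p K H S χ y) :
    InKernel p K H S χ (x + y) :=
  ⟨fun τ => by rw [map_add, hx.1 τ, hy.1 τ, smul_add], fun L hL σ hσ => by
    rw [map_add, hx.2 L hL σ hσ, hy.2 L hL σ hσ, add_zero]⟩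

theorem InKernel.zero : InKernel p K H S χ 0 :=
  ⟨fun τ => by rw [map_zero, smul_zero], fun L hL σ _ => map_zero _⟩

theorem InKernel.smul (c : ℂ_[p]) {x : UM p H} (hx : InKernel p K H S χ x) :
    InKernel p K H S χ (c • x) :=
  ⟨fun τ => by rw [map_smul, hx.1 τ, smul_comm], fun L hL σ hσ => by
    rw [map_smul, hx.2 L hL σ hσ, smul_zero]⟩

end

/-- The kernel of the `p`-adic regulator map of the set `S` of embeddings of `K` on the `χ`-part. -/
def sigmaKernel (p : ℕ) [Fact p.Prime] (K H : Type) [Field K] [Field H] [NumberField H] [Algebra K H]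
    (S : Set (K →+* ℂ_[p])) (χ : (H ≃ₐ[K] H) →* ℂ_[p]ˣ) : Submodule ℂ_[p] (UM p H) where
  carrier := {x | InKernel p K H S χ x}
  add_mem' := InKernel.add
  zero_mem' := InKernel.zero
  smul_mem' := fun c _ hx => InKernel.smul c hx

/-- The defect of `S` for `χ`: the dimension of the kernel of the `p`-adic regulator map on the `χ`-part. -/
noncomputable def defect (p : ℕ) [Fact p.Prime] (K H : Type) [Field K] [Field H] [NumberField H]
    [Algebra K H] (S : Set (K →+* ℂ_[p])) (χ : (H ≃ₐ[K] H) →* ℂ_[p]ˣ) : ℕ :=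
  Module.finrank ℂ_[p] (sigmaKernel p K H S χ)

/-- Mackey's criterion for the irreducibility of the representation of `Gal(ℚ)` induced from `χ`: for any two
embeddings `f`, `f'` of `H` in the algebraic closure of `ℚ` which are different on `K` there is an
automorphism `γ` of the algebraic closure which acts on `f(H)` as `h`, on `f'(H)` as `h'`, with `h`, `h'` in
`Gal(H/K)` and `χ h ≠ χ h'`. -/
def Mackey (p : ℕ) [Fact p.Prime] (K H : Type) [Field K] [Field H] [Algebra K H]
    (χ : (H ≃ₐ[K] H) →* ℂ_[p]ˣ) : Prop :=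
  ∀ f f' : H →+* AlgebraicClosure ℚ, f.comp (algebraMap K H) ≠ f'.comp (algebraMap K H) →
    ∃ (γ : AlgebraicClosure ℚ ≃+* AlgebraicClosure ℚ) (h h' : H ≃ₐ[K] H),
      (∀ y, γ (f y) = f (h y)) ∧ (∀ y, γ (f' y) = f' (h' y)) ∧ χ h ≠ χ h'

/-- The CM types of `K` whose defect for `χ` is at most `r`. -/
def typesOfDefectLE (p : ℕ) [Fact p.Prime] (F K H : Type) [Field F] [Field K] [Field H] [NumberField H]
    [Algebra F K] [Algebra K H] (χ : (H ≃ₐ[K] H) →* ℂ_[p]ˣ) (r : ℕ) : Set (Set (K →+* ℂ_[p])) :=
  {S | IsCMType p F K S ∧ defect p K H S χ ≤ r}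

/-- The CM types of `K` for which the `Σ`-Leopoldt conjecture for `χ` holds. -/
def leopoldtTypes (p : ℕ) [Fact p.Prime] (F K H : Type) [Field F] [Field K] [Field H] [NumberField H]
    [Algebra F K] [Algebra K H] (χ : (H ≃ₐ[K] H) →* ℂ_[p]ˣ) : Set (Set (K →+* ℂ_[p])) :=
  {S | IsCMType p F K S ∧ SigmaLeopoldt p K H S χ}

/-- The CM types of `K` with `(3 d - t) * defect ≤ d ^ 2`, where `d` is the degree of `F`. -/
def smallTypes (p : ℕ) [Fact p.Prime] (F K H : Type) [Field F] [NumberField F] [Field K] [Field H]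
    [NumberField H] [Algebra F K] [Algebra K H] (χ : (H ≃ₐ[K] H) →* ℂ_[p]ˣ) (t : ℕ) :
    Set (Set (K →+* ℂ_[p])) :=
  {S | IsCMType p F K S ∧
    (3 * Module.finrank ℚ F - t) * defect p K H S χ ≤ (Module.finrank ℚ F) ^ 2}

/-- `s ≥ 1` and, with `d` the degree of `F`: `n (n - 1) (s + 1 - n) < d` for all `n ≤ s`; or the
representation induced from `χ` is irreducible and `s (s - 1) < d`. -/
def Admissible (p : ℕ) [Fact p.Prime] (F K H : Type) [Field F] [NumberField F] [Field K] [Field H]
    [Algebra K H] (χ : (H ≃ₐ[K] H) →* ℂ_[p]ˣ) (s : ℕ) : Prop :=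
  1 ≤ s ∧ ((∀ n, n ≤ s → n * (n - 1) * (s + 1 - n) < Module.finrank ℚ F) ∨
    (Mackey p K H χ ∧ s * (s - 1) < Module.finrank ℚ F))

/-- Exchange of CM types: for each CM type `S` and each set `T` of less than `s` embeddings of `K` there
is a CM type `S' ≠ S` which agrees with `S` on `T` and whose defect is not larger than that of `S`. -/
def HasExchange (p : ℕ) [Fact p.Prime] (F K H : Type) [Field F] [Field K] [Field H] [NumberField H]
    [Algebra F K] [Algebra K H] (χ : (H ≃ₐ[K] H) →* ℂ_[p]ˣ) (s : ℕ) : Prop :=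
  ∀ S : Set (K →+* ℂ_[p]), IsCMType p F K S → ∀ T : Finset (K →+* ℂ_[p]), T.card < s →
    ∃ S' : Set (K →+* ℂ_[p]), IsCMType p F K S' ∧ S' ≠ S ∧ (∀ τ ∈ T, (τ ∈ S' ↔ τ ∈ S)) ∧
      defect p K H S' χ ≤ defect p K H S χ

/-- **Exchange of CM types.** Let `F` be totally real, `K` totally complex, `[K : F] = 2`, `H/K` a finite
Galois extension and `χ ≠ 1` a character of `Gal(H/K)` with values in `ℂ_pˣ`.
(0) The defect of `S` is zero if and only if the `S`-Leopoldt conjecture for `χ` holds.
(1) For admissible `s` there is exchange for sets of less than `s` embeddings, and for each `r` the number of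
CM types of defect at most `r` is zero or at least `2 ^ s`.
(2) If moreover `k ⊆ K` is an imaginary quadratic field and `H/k` is abelian, then the `Σ`-Leopoldt
conjecture for `χ` holds for at least `2 ^ s` CM types.
(3) If the representation induced from `χ` is irreducible, then for each CM type `S` and each set `T` of
embeddings there is a CM type `S'` which agrees with `S` on `T` with
`(3 d - |T|) * defect S' ≤ d ^ 2`, and for `t ≤ d` at least `2 ^ t` CM types have
`(3 d - t) * defect ≤ d ^ 2`. -/
theorem result (p : ℕ) [Fact p.Prime] (F K H : Type) [Field F] [NumberField F] [IsTotallyReal F]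
    [Field K] [NumberField K] [IsTotallyComplex K] [Algebra F K] (hFK : Module.finrank F K = 2)
    [Field H] [NumberField H] [Algebra K H] [IsGalois K H]
    (χ : (H ≃ₐ[K] H) →* ℂ_[p]ˣ) (hχ : χ ≠ 1) :
    (∀ S : Set (K →+* ℂ_[p]), SigmaLeopoldt p K H S χ ↔ defect p K H S χ = 0) ∧
    (∀ s : ℕ, Admissible p F K H χ s → HasExchange p F K H χ s ∧
      (∀ r : ℕ, typesOfDefectLE p F K H χ r = ∅ ∨ 2 ^ s ≤ (typesOfDefectLE p F K H χ r).ncard) ∧
      (∀ (k : Type) [Field k] [NumberField k] [IsTotallyComplex k] [Algebra k K] [Algebra k H]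
        [IsScalarTower k K H] [IsGalois k H], Module.finrank ℚ k = 2 →
        (∀ a b : H ≃ₐ[k] H, a * b = b * a) → 2 ^ s ≤ (leopoldtTypes p F K H χ).ncard)) ∧
    (Mackey p K H χ →
      (∀ S : Set (K →+* ℂ_[p]), IsCMType p F K S → ∀ T : Finset (K →+* ℂ_[p]),
        ∃ S' ∈ smallTypes p F K H χ T.card, ∀ τ ∈ T, (τ ∈ S' ↔ τ ∈ S)) ∧
      (∀ t : ℕ, t ≤ Module.finrank ℚ F → 2 ^ t ≤ (smallTypes p F K H χ t).ncard)) := by
  have : FiniteDimensional K H := Module.Finite.of_restrictScalars_finite ℚ K H
  have hdef : ∀ S, defect p K H S χ = Module.finrank ℂ_[p] (Pool.Agent.U157.SLK.kerS χ S) :=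
    fun S => rfl
  have hgood : ∀ S : Set (K →+* ℂ_[p]), SigmaLeopoldt p K H S χ ↔ defect p K H S χ = 0 :=
    fun S => Pool.Agent.U157.SLK.good_iff χ S
  have hno : ∀ s : ℕ, Admissible p F K H χ s →
      s ≤ Module.finrank ℚ F ∧ Pool.Agent.U157.SLK.NoRel χ s := by
    rintro s ⟨hs, h | ⟨hM, h⟩⟩
    · exact ⟨Pool.Agent.U157.SLK.le_of_bound hs h, Pool.Agent.U157.SLK.norel_bound hFK hχ h⟩
    · refine ⟨?_, Pool.Agent.U157.SLK.norel_mackey hFK hχ hM h⟩
      rcases Nat.lt_or_ge s 2 with h1 | h1
      · omega
      · exact (le_trans (by rw [mul_one]) (Nat.mul_le_mul_left s (by omega : 1 ≤ s - 1))).trans h.le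
  refine ⟨hgood, fun s hb => ?_, fun hM => ⟨?_, ?_⟩⟩
  · have hs := hb.1
    obtain ⟨h1, h2⟩ := hno s hb
    refine ⟨fun S hS T hT => Pool.Agent.U157.SLK.exch hFK h1 h2 S hS T hT, fun r => ?_, ?_⟩
    · rcases Set.eq_empty_or_nonempty (typesOfDefectLE p F K H χ r) with h | h
      · exact Or.inl h
      · exact Or.inr (Pool.Agent.U157.SLK.exch_count hFK hs h1 h2 r h)
    · intro k _ _ _ _ _ _ _ hk hab
      have h3 := Pool.Agent.U157.SLK.exch_count hFK hs h1 h2 0
        (Pool.Agent.U157.SLK.exch_abel hFK χ hk hab)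
      refine le_trans h3 (Set.ncard_le_ncard ?_ (Set.toFinite _))
      rintro S ⟨h4, h5⟩
      exact ⟨h4, (hgood S).2 (Nat.le_zero.1 h5)⟩
  · intro S hS T
    obtain ⟨S', h1, h2, h3⟩ := Pool.Agent.U157.SLK.exch_small hFK hχ hM S hS T
    exact ⟨S', ⟨h1, h3⟩, h2⟩
  · exact fun t ht => Pool.Agent.U157.SLK.small_count hFK hχ hM t ht

end Pool.Agent.Results.MP_fc6b1e_nt.ExchangeOfTypes
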