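import Pool.Agent.U157.SLK.FiveMain

set_option autoImplicit false

/-!
# Cubic fields: at least five of the eight CM types, for characters of an imaginary quadratic field

Let `F` be ANY totally real cubic field, `k` an imaginary quadratic field, `K = F k`, and `p` any prime.
Let `ψ` be a character of finite order of the absolute Galois group of `k` with values in `ℂ_p`, let `χ` be
its restriction to the absolute Galois group of `K` and `H` the fixed field of the kernel of `χ`.

**Theorem.** If `H` is not a CM field, then the `Σ`-Leopoldt conjecture for `χ` holds for at least FIVE of
the eight CM types `Σ` of `K`.

The condition on `H` is necessary in the following sense: if `H` is a CM field (this is the case if `ψ` is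
the restriction of a character of `ℚ`), then the statement for each of the types is equivalent to
Leopoldt's conjecture for a part of the units of the maximal real subfield of `H`; for `χ = 1` it is
Leopoldt's conjecture for `F`.

If `F` is cyclic, then the statement for the two types which are induced from `k` is the theorem of Brumer;
if `F` is not cyclic no type was known.

Proof. The `χ`-part `V` of `ℂ_p ⊗ 𝓞_H^×` has dimension three, and the embeddings of `K` in `ℂ_p` give six
linear forms on `V`, in three pairs (an embedding and its complex conjugate); a CM type chooses one form of
each pair and it is bad if the three forms have a common zero `z ≠ 0`. The `p`-adic hyperplane theorem (six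
exponentials for linear forms in logarithms) and the comparison with the real logarithms show that no
two of the six forms are proportional. So they give six different lines in the projective plane `P(V)`, and
a type is bad if its three lines have a common point. (1) No point is on five of the six lines: the
sum of the three forms over an embedding of `k` is the logarithm of the component in the `ψ`-part,
and as this part has dimension one, such a point would be on all six lines and its `ψ`-component would be
zero. The space of such vectors has dimension two, and the hyperplane theorem gives a
contradiction (Leopoldt's conjecture for this part). (2) It follows from (1) that, if at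
least four types are bad, then the four types with an even number (or the four with an odd
number) of embeddings over one embedding of `k` are bad: the six lines are a complete quadrilateral.
Then the relations with the `ψ`-part show that a form is `x (β - ω β')` with `ω ^ 3 = 1` and two other
forms `β`, `β'`; the hyperplane theorem shows that `x` is algebraic, and the real logarithms at three
different places would be dependent, a contradiction.
-/

namespace Pool.Agent.Results.MP_fc6b1e_nt.FiveOfEightTypes

open NumberField Pool.Agent.W289.SL

/-- Let `k ⊆ K ⊆ H ⊆ N`. The character `χ` of `Gal(H/K)` is the restriction of the character `ψ` of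
`Gal(N/k)`: if `g` in `Gal(N/K)` is equal to `h` on `H`, then `χ h = ψ g`. -/
def IsRestriction (p : ℕ) [Fact p.Prime] (k K H N : Type) [Field k] [Field K] [Field H] [Field N]
    [Algebra k K] [Algebra k N] [Algebra K H] [Algebra H N] [Algebra K N] [IsScalarTower k K N]
    (ψ : (N ≃ₐ[k] N) →* ℂ_[p]ˣ) (χ : (H ≃ₐ[K] H) →* ℂ_[p]ˣ) : Prop :=
  ∀ (g : N ≃ₐ[K] N) (h : H ≃ₐ[K] H), (∀ y, algebraMap H N (h y) = g (algebraMap H N y)) →
    χ h = ψ (g.restrictScalars k)

/-- **At least five of the eight CM types.** Let `F` be a totally real cubic field, `k` an imaginary
quadratic field and `K` a quadratic extension of `F` which contains `k`. Let `H/K` be a finite Galois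
extension which is not a CM field, `N/k` a finite Galois extension which contains `H`, and `χ` an injective
character of `Gal(H/K)` with values in `ℂ_pˣ` which is the restriction of a character `ψ` of
`Gal(N/k)`. Then the `Σ`-Leopoldt conjecture for `χ` holds for at least five of the eight CM types of `K`. -/
theorem result (p : ℕ) [Fact p.Prime] (F k K H N : Type)
    [Field F] [NumberField F] [IsTotallyReal F] [Field k] [NumberField k] [IsTotallyComplex k]
    [Field K] [NumberField K] [Algebra F K] [Algebra k K] (hF : Module.finrank ℚ F = 3)
    (hk : Module.finrank ℚ k = 2) (hFK : Module.finrank F K = 2)
    [Field H] [NumberField H] [Field N] [NumberField N] [Algebra K H] [Algebra H N] [Algebra K N]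
    [Algebra k N] [IsScalarTower K H N] [IsScalarTower k K N] [IsGalois K H] [IsGalois k N]
    (hCM : ¬ IsCMField H) (ψ : (N ≃ₐ[k] N) →* ℂ_[p]ˣ) (χ : (H ≃ₐ[K] H) →* ℂ_[p]ˣ)
    (hinj : Function.Injective χ) (hχ : IsRestriction p k K H N ψ χ) :
    5 ≤ {S : Set (K →+* ℂ_[p]) | IsCMType p F K S ∧ SigmaLeopoldt p K H S χ}.ncard :=
  Pool.Agent.U157.SLK.five_types F k K H N hF hk hFK hCM ψ χ hinj hχ

end Pool.Agent.Results.MP_fc6b1e_nt.FiveOfEightTypes
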