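import Pool.Agent.Results.MP_fc6b1e_nt.ResidueClassesAndOrbits
import Pool.Agent.U125.NO.Pad

/-!
# The `Σ`-Leopoldt conjecture along normal orbits of parameters, for all degrees and almost all primes at the
# same time

For integers `a_1, …, a_d` let `F = ℚ(w)`, `∏ (w - a_i²) = 1`. `Good p a` (see `AlmostAllFields.lean`): the fields `F`
and, for every imaginary quadratic field `k`, fields `K ⊇ F k` exist; every such `F` is totally real of degree `d`;
`w` is neither a square in `F` nor in any totally complex quadratic extension `K` of `F`; and for EVERY totally
complex quadratic extension `K` of `F`, for `H = K(√w)`, the `Σ`-Leopoldt statement holds for the prime `p`, for every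
CM type `S` of `K` with values in `ℂ_p` and every character `χ` of `Gal(H/K)`.

**Theorem.** Let `x_0, x_1, …` be ANY normal orbit of vectors in `ℤ^r` (`NormalOrbit`). There are a number `M > 0`
and ONE set `E` of natural numbers of density zero such that for ALL primes `p` which do not divide `M`, ALL
degrees `d ≥ 1` and ALL choices `σ` of `d` different coordinates, the vector of these coordinates of `x_n` is good
for all but finitely many `n ∉ E`.

A normal orbit is the orbit of an integral vector under a finite family of integral affine maps along ANY
normal sequence of indices, where the family is wide: for all `q` prime to some `q₀` the maps are bijective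
modulo `q`, and the vector can be moved to at least the proportion `κ > 0`, not depending on `q`, of all
vectors modulo `q`. The starting result `ResidueClassesAndOrbits` has ALMOST ALL words in generators of a thin
group, and almost all real vectors, and sets of exceptional times which depend on `p`, `d` and `σ`.

Examples: (1) the vectors `(⌊b ^ n ξ_i⌋)_i` for ANY vector `ξ` of real numbers which is normal to the base
`b ≥ 2`: the polynomials `∏ (Y - a_i²) - 1` are read off from the expansions of the numbers `ξ_i`, one field `F`
for every digit; (2) the orbit of any vector `v ≠ 0` along ANY normal word in matrices which generate the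
special linear group modulo all `q` prime to some `q₀` (generators of a thin group); (3) vectors of integers
whose digits are chosen from a restricted set of vectors.

Proof. The exceptional vectors are in few residue classes modulo `p ^ k` (`Pool.Agent.N924.LP`, helper924, and
`Pool.Agent.N918.PN`, helper918), and along a normal orbit the frequency of any set of residue classes modulo a
number prime to `M` is at most a constant times its proportion: the orbit modulo `p ^ k` is an orbit along a
normal sequence in a finite transitive system of permutations, and it is equidistributed there (engine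
`Pool.Agent.U125.NO`). A diagonal argument gives one set `E`.
-/

set_option autoImplicit false

namespace Pool.Agent.Results.MP_fc6b1e_nt.NormalSequences

open Pool.Agent.Results.MP_fc6b1e_nt.AlmostAllFields (Good)
open Pool.Agent.Results.MP_fc6b1e_nt.ResidueClassesAndOrbits (Bad pnull_pull)
open Pool.Agent.N918.PN (rarely_of_freq)
open Pool.Agent.U125.NO (NormalOrbit Nul nul_countable Examples examples NormalOrbit.freq)

/-- **The `Σ`-Leopoldt conjecture along normal orbits.** `Nul E`: the set `E` of natural numbers has natural
density zero. -/
theorem result (r : ℕ) :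
    (∀ x : ℕ → Fin r → ℤ, NormalOrbit x → ∃ M : ℕ, 0 < M ∧ ∃ E : Set ℕ, Nul E ∧
      ∀ (p : ℕ) [Fact p.Prime], ¬ p ∣ M → ∀ d : ℕ, 1 ≤ d → ∀ σ : Fin d → Fin r,
        Function.Injective σ → {n : ℕ | n ∉ E ∧ ¬ Good p (fun i => x n (σ i))}.Finite) ∧
    Examples (Fin r) := by
  refine ⟨fun x hx => ?_, examples _⟩
  obtain ⟨M, hM, C, hC, h⟩ := hx.freq
  let K : Type := {p : ℕ // p.Prime ∧ ¬ p ∣ M} × Σ (d : ℕ),
    {σ : Fin d → Fin r // 1 ≤ d ∧ Function.Injective σ}
  obtain ⟨E, hE, hE2⟩ := nul_countable
    (fun k : K => {n : ℕ | x n ∈ @Bad k.1.1 ⟨k.1.2.1⟩ k.2.1 r k.2.2.1}) (fun k => by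
      have hp : Fact k.1.1.Prime := ⟨k.1.2.1⟩
      exact rarely_of_freq hC.le k.1.2.1.pos
        (fun j => h (k.1.1 ^ j) (pow_pos k.1.2.1.pos j)
          (Nat.Coprime.pow_left j ((Nat.Prime.coprime_iff_not_dvd k.1.2.1).2 k.1.2.2)))
        (pnull_pull k.1.1 k.2.2.2.1 k.2.2.1 k.2.2.2.2))
  refine ⟨M, hM, E, hE, fun p hp hpM d hd σ hσ => ?_⟩
  refine (hE2 ⟨⟨p, hp.out, hpM⟩, d, σ, hd, hσ⟩).subset ?_
  rintro n ⟨h1, h2⟩
  exact ⟨h2, h1⟩

end Pool.Agent.Results.MP_fc6b1e_nt.NormalSequences
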